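import Pool.Agent.H68.CeDefs
import Pool.Agent.H68.Ce2

set_option autoImplicit false

namespace Pool.Agent.Results.MP_10193a_al.Commutative

open Pool.Agent.H68.Ce

universe u

theorem result (A : Type u) [AddCommGroup A] (hc : CentEss (AddMonoid.End A)) :
    (RDistrib (AddMonoid.End A) → ∀ a b : AddMonoid.End A, a * b = b * a) ∧
    (RUniserial (AddMonoid.End A) → ∀ a b : AddMonoid.End A, a * b = b * a) :=
  ⟨fun h => main h hc, fun h => main h.dist hc⟩

end Pool.Agent.Results.MP_10193a_al.Commutative
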